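import Pool.Agent.Results.MP_d37f77_nt.SelmerSetsOverExtensions
import Pool.Agent.V5helper64.NR.Sets

/-!
# Finite descent for all members of a family near a given point, over all extensions of bounded degree

`E : y² = x³ + a x + b` is an elliptic curve over a number field `K` (any rank) whose Tate-Shafarevich group
over `K` is killed by some `M₀ ≥ 1`, and `X` is a closed subset of `E ^ r × ℙ ^ n` over `K`, a family of closed
subsets `X_y ⊆ E ^ r`, for example of curves. Suppose that for all `1 ≤ m ≤ M` and all complex points `S` of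
`E ^ r` there are at most `D` points `y` such that `S` is a sum of `m` points of `X_y`. (These are the
hypotheses of the starting file `SelmerSetsOverExtensions`.) Let `φ` be any map from `ℙ ^ n (K)` to a metric
space `Y`, for example the inclusion in `ℙ ^ n (K_v)` for a place `v` of `K`, or in a product of such spaces.

**Theorem.** There is a set `Z ⊆ Y` of Hausdorff dimension zero such that for all `ξ ∈ Y` outside `Z`, all
`τ > 0` and all `ε > 0` there is `C` such that for every `c` and all but finitely many of the points `y ∈ ℙ ^ n (K)`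
with `dist (φ y) ξ ≤ c H(y) ^ (-τ)` there is a level `N ≤ C H(y) ^ ε` for which the `N`-Selmer set of `X_y` over
ALL extensions `F` of `K` of degree at most `M` is empty: no `N`-covering of `E ^ r` over `F` has a pull-back to
`X_y` with points over all completions of `F` at finite places.

The starting file shows this for all `y` of height at most `B` with at most `O(B ^ ε)` exceptions (and one
level `N = O(B ^ ε)`). By the theorem the points near which there are infinitely many exceptions are a set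
of dimension zero: near all other points, at a distance as large as any negative power of the
height, finite descent works for all but finitely many members.
-/

set_option autoImplicit false

namespace Pool.Agent.Results.MP_d37f77_nt.MembersNearAPoint

open MvPolynomial NumberField IsDedekindDomain Pool.Agent.TH954
open SelmerSetsOverExtensions (curve MultiHomog IsSum Sel)

open scoped LinearAlgebra.Projectivization

/-- For some level `N ≤ C H(y) ^ ε` the `N`-Selmer sets of the member `X_y` over all extensions of `K` of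
degree at most `M` are empty. -/
def Descent {K : Type} [Field K] [NumberField K] (a b : 𝓞 K) {r n q : ℕ}
    (G : Fin q → MvPolynomial ((Fin r × Fin 3) ⊕ Fin (n + 1)) (𝓞 K)) (M : ℕ) (C ε : ℝ)
    (y : ℙ K (Fin (n + 1) → K)) : Prop :=
  ∃ N : ℕ, 1 ≤ N ∧ (N : ℝ) ≤ C * y.mulHeight ^ ε ∧
    ∀ (F : Type) [Field F] [NumberField F] [Algebra K F], Module.finrank K F ≤ M → Sel a b G F N y = ∅

theorem one_le_ht {K : Type} [Field K] [NumberField K] {n : ℕ} (y : ℙ K (Fin (n + 1) → K)) :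
    1 ≤ y.mulHeight := Projectivization.one_le_mulHeight y

theorem result (K : Type) [Field K] [NumberField K] (a b : 𝓞 K)
    (hE : 4 * a ^ 3 + 27 * b ^ 2 ≠ 0) (M₀ : ℕ) (hM1 : 1 ≤ M₀)
    (hM : ShaKilledBy (curve (a : K) (b : K)) M₀) (r n q : ℕ)
    (G : Fin q → MvPolynomial ((Fin r × Fin 3) ⊕ Fin (n + 1)) (𝓞 K))
    (d : Fin q → Fin r → ℕ) (deg : Fin q → ℕ) (hG : ∀ e, MultiHomog (G e) (d e) (deg e))
    (σ : K →+* ℂ) (M D : ℕ)
    (hX : ∀ m, 1 ≤ m → m ≤ M → ∀ S : Fin r → (curve (σ a) (σ b)).toAffine.Point,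
      {y : ℙ ℂ (Fin (n + 1) → ℂ) | IsSum σ a b G m S y.rep}.encard ≤ D)
    (Y : Type) [MetricSpace Y] (φ : ℙ K (Fin (n + 1) → K) → Y) :
    ∃ Z : Set Y, dimH Z = 0 ∧ ∀ ξ : Y, ξ ∉ Z → ∀ τ : ℝ, 0 < τ → ∀ ε : ℝ, 0 < ε →
      ∃ C : ℝ, ∀ c : ℝ, {y : ℙ K (Fin (n + 1) → K) |
        dist (φ y) ξ ≤ c * y.mulHeight ^ (-τ) ∧ ¬ Descent a b G M C ε y}.Finite := by
  classical
  have hres := fun j : ℕ => SelmerSetsOverExtensions.result K a b hE M₀ hM1 hM r n q G d deg hG σ M D hX
    (1 / ((j : ℝ) + 1)) (by positivity)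
  choose C hC using hres
  have hht : ∀ y : ℙ K (Fin (n + 1) → K), 1 ≤ y.mulHeight := one_le_ht
  have hC1 : ∀ j, 1 ≤ C j := by
    intro j
    obtain ⟨N, h1, h2, -⟩ := hC j 1 le_rfl
    rw [Real.one_rpow, mul_one] at h2
    have : (1 : ℝ) ≤ N := by exact_mod_cast h1
    linarith
  -- the exceptional points for the exponent `1 / (j + 1)`
  obtain ⟨Bad, hBad⟩ : ∃ Bad : ℕ → Set (ℙ K (Fin (n + 1) → K)),
      Bad = fun j => {y | ¬ Descent a b G M (C j * 2 ^ (1 / ((j : ℝ) + 1))) (1 / ((j : ℝ) + 1)) y} :=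
    ⟨_, rfl⟩
  have hcount : ∀ j : ℕ, ∃ C' : ℝ, 0 ≤ C' ∧ ∀ T : ℕ, 1 ≤ T →
      {y | y ∈ Bad j ∧ y.mulHeight ≤ T}.Finite ∧
      (({y | y ∈ Bad j ∧ y.mulHeight ≤ T}.ncard : ℕ) : ℝ) ≤ C' * (T : ℝ) ^ (1 / ((j : ℝ) + 1)) := by
    intro j
    set ε : ℝ := 1 / ((j : ℝ) + 1) with hε
    have hε0 : 0 < ε := by positivity
    have hCj := hC1 j
    have h2 : (1 : ℝ) < 2 ^ ε := Real.one_lt_rpow one_lt_two hε0
    have hB : ∀ i : ℕ, ∃ Z : Finset (ℙ K (Fin (n + 1) → K)), (Z.card : ℝ) ≤ C j * (2 ^ ε) ^ i ∧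
        ∀ y : ℙ K (Fin (n + 1) → K), y ∈ Bad j → y.mulHeight ≤ 2 ^ i → (2 : ℝ) ^ i ≤ 2 * y.mulHeight →
          y ∈ Z := by
      intro i
      have hB1 : (1 : ℝ) ≤ 2 ^ i := one_le_pow₀ one_le_two
      obtain ⟨N, h3, h4, Z, h5, h6⟩ := hC j (2 ^ i) hB1
      have e1 : ((2 : ℝ) ^ i) ^ ε = (2 ^ ε) ^ i := by
        rw [← Real.rpow_natCast 2 i, ← Real.rpow_natCast (2 ^ ε) i, ← Real.rpow_mul two_pos.le,
          ← Real.rpow_mul two_pos.le, mul_comm]
      refine ⟨Z, by rw [← e1]; exact h5, fun y hy hyi hyi2 => ?_⟩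
      by_contra hcon
      rw [hBad] at hy
      apply hy
      refine ⟨N, h3, h4.trans ?_, fun F _ _ _ hF => h6 y hyi hcon F hF⟩
      rw [mul_assoc]
      refine mul_le_mul_of_nonneg_left ?_ (by linarith)
      rw [← Real.mul_rpow two_pos.le (by linarith [hht y])]
      exact Real.rpow_le_rpow (by positivity) hyi2 hε0.le
    choose Z hZ1 hZ2 using hB
    refine ⟨C j * (2 ^ ε * 2 ^ ε / (2 ^ ε - 1)), mul_nonneg (by linarith)
      (div_nonneg (by positivity) (by linarith)), fun T hT => ?_⟩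
    set I : ℕ := Nat.log 2 (2 * T) with hI
    have hsub : {y | y ∈ Bad j ∧ y.mulHeight ≤ T} ⊆
        (((Finset.range (I + 1)).biUnion Z : Finset _) : Set (ℙ K (Fin (n + 1) → K))) := by
      rintro y ⟨hy1, hy2⟩
      have hex : ∃ i : ℕ, y.mulHeight ≤ 2 ^ i := pow_unbounded_of_one_lt _ one_lt_two |>.imp
        fun i hi => hi.le
      obtain ⟨i, hi⟩ : ∃ i, i = Nat.find hex := ⟨_, rfl⟩
      have hi1 : y.mulHeight ≤ 2 ^ i := by rw [hi]; exact Nat.find_spec hex
      have hi2 : (2 : ℝ) ^ i ≤ 2 * y.mulHeight := by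
        rcases Nat.eq_zero_or_pos i with h0 | h0
        · rw [h0, pow_zero]
          linarith [hht y]
        · have h3 := Nat.find_min hex (m := i - 1) (by omega)
          rw [not_le] at h3
          have h4 : (2 : ℝ) ^ i = 2 * 2 ^ (i - 1) := by
            rw [← pow_succ']
            congr 1
            omega
          rw [h4]
          linarith
      rw [Finset.mem_coe, Finset.mem_biUnion]
      refine ⟨i, ?_, hZ2 i y hy1 hi1 hi2⟩
      rw [Finset.mem_range, Nat.lt_succ_iff, hI]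
      apply Nat.le_log_of_pow_le one_lt_two
      have h5 : (2 : ℝ) ^ i ≤ 2 * T := by linarith
      exact_mod_cast h5
    refine ⟨(Finset.finite_toSet _).subset hsub, ?_⟩
    have h3 : (({y | y ∈ Bad j ∧ y.mulHeight ≤ T}.ncard : ℕ) : ℝ) ≤
        ((Finset.range (I + 1)).biUnion Z).card := by
      have := Set.ncard_le_ncard hsub (Finset.finite_toSet _)
      rw [Set.ncard_coe_finset] at this
      exact_mod_cast this
    have h4 : (((Finset.range (I + 1)).biUnion Z).card : ℝ) ≤ ∑ i ∈ Finset.range (I + 1), C j * (2 ^ ε) ^ i := by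
      refine le_trans ?_ (Finset.sum_le_sum fun i _ => hZ1 i)
      exact_mod_cast Finset.card_biUnion_le
    refine h3.trans (h4.trans ?_)
    rw [← Finset.mul_sum, geom_sum_eq (by linarith : (2 : ℝ) ^ ε ≠ 1), mul_assoc]
    refine mul_le_mul_of_nonneg_left ?_ (by linarith)
    rw [div_mul_eq_mul_div]
    refine div_le_div_of_nonneg_right ?_ (by linarith)
    have h5 : ((2 : ℝ) ^ ε) ^ I ≤ (2 * T : ℝ) ^ ε := by
      have h6 : (2 : ℝ) ^ I ≤ 2 * T := by
        have := Nat.pow_log_le_self 2 (x := 2 * T) (by omega)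
        exact_mod_cast this
      calc ((2 : ℝ) ^ ε) ^ I = ((2 : ℝ) ^ I) ^ ε := by
            rw [← Real.rpow_natCast (2 ^ ε) I, ← Real.rpow_natCast 2 I, ← Real.rpow_mul two_pos.le,
              ← Real.rpow_mul two_pos.le, mul_comm]
        _ ≤ _ := Real.rpow_le_rpow (by positivity) h6 hε0.le
    rw [Real.mul_rpow two_pos.le (Nat.cast_nonneg _)] at h5
    have h7 : ((2 : ℝ) ^ ε) ^ (I + 1) = 2 ^ ε * (2 ^ ε) ^ I := by rw [pow_succ']
    rw [h7]
    have h8 := mul_le_mul_of_nonneg_left h5 (by positivity : (0 : ℝ) ≤ 2 ^ ε)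
    linarith
  choose C' hC'0 hC' using hcount
  obtain ⟨Z, hZ, hZ'⟩ := Pool.Agent.V5helper64.NR.near_sets (Y := ℕ)
    (F := fun j k T => {y | y ∈ Bad (max j k) ∧ y.mulHeight ≤ (T : ℝ)})
    (by
      rintro j k t t' htt y ⟨h1, h2⟩
      exact ⟨h1, h2.trans (by exact_mod_cast htt)⟩)
    (by
      intro j k
      refine ⟨C' (max j k), fun T hT => ⟨(hC' _ T hT).1, (hC' _ T hT).2.trans ?_⟩⟩
      refine mul_le_mul_of_nonneg_left ?_ (hC'0 _)
      refine Real.rpow_le_rpow_of_exponent_le (by exact_mod_cast hT) ?_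
      refine one_div_le_one_div_of_le (by positivity) ?_
      have : (j : ℝ) ≤ (max j k : ℕ) := by exact_mod_cast le_max_left j k
      linarith) φ
  refine ⟨Z, hZ, fun ξ hξ τ hτ ε hε => ?_⟩
  obtain ⟨j, hj⟩ := hZ' ξ hξ τ hτ
  obtain ⟨k, hk⟩ := exists_nat_one_div_lt hε
  obtain ⟨l, hl⟩ : ∃ l, l = max j k := ⟨_, rfl⟩
  refine ⟨C l * 2 ^ (1 / ((l : ℝ) + 1)), fun c => ?_⟩
  refine (hj k (max c 0 * 2 ^ τ)).subset ?_
  rintro y ⟨hy1, hy2⟩
  have h1 := hht y
  have hle : y.mulHeight ≤ (⌈y.mulHeight⌉₊ : ℝ) := Nat.le_ceil _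
  have hceil : (⌈y.mulHeight⌉₊ : ℝ) ≤ 2 * y.mulHeight := by
    have := (Nat.ceil_lt_add_one (by linarith : 0 ≤ y.mulHeight)).le
    linarith
  have hc0 : (0 : ℝ) < ⌈y.mulHeight⌉₊ := by linarith
  refine ⟨⌈y.mulHeight⌉₊, by exact_mod_cast h1.trans hle, ⟨?_, hle⟩, ?_⟩
  · rw [hBad, ← hl]
    rintro ⟨N, h2, h3, h4⟩
    apply hy2
    refine ⟨N, h2, h3.trans ?_, h4⟩
    refine mul_le_mul_of_nonneg_left ?_ (mul_nonneg (by linarith [hC1 l]) (by positivity))
    refine Real.rpow_le_rpow_of_exponent_le h1 ?_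
    have h5 : 1 / ((l : ℝ) + 1) ≤ 1 / ((k : ℝ) + 1) := by
      refine one_div_le_one_div_of_le (by positivity) ?_
      have : (k : ℝ) ≤ (l : ℕ) := by rw [hl]; exact_mod_cast le_max_right j k
      linarith
    linarith
  · refine hy1.trans ((mul_le_mul_of_nonneg_right (le_max_left c 0)
      (Real.rpow_nonneg (by linarith) _)).trans ?_)
    rw [mul_assoc]
    refine mul_le_mul_of_nonneg_left ?_ (le_max_right _ _)
    have h2 : (2 * y.mulHeight) ^ (-τ) ≤ (⌈y.mulHeight⌉₊ : ℝ) ^ (-τ) :=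
      Real.rpow_le_rpow_of_nonpos hc0 hceil (by linarith)
    rw [Real.mul_rpow two_pos.le (by linarith)] at h2
    have h3 : (2 : ℝ) ^ τ * (2 ^ (-τ) * y.mulHeight ^ (-τ)) = y.mulHeight ^ (-τ) := by
      rw [← mul_assoc, ← Real.rpow_add two_pos, add_neg_cancel, Real.rpow_zero, one_mul]
    rw [← h3]
    exact mul_le_mul_of_nonneg_left h2 (by positivity)

end Pool.Agent.Results.MP_d37f77_nt.MembersNearAPoint
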