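import Pool.Agent.Results.MP_d37f77_nt.SelmerSetsOfRandomCurves
import Pool.Agent.V5helper64.SC.Wind

/-!
# Finite descent for all curves with coefficients near the vectors of a sequence

`E_i : y² = x³ + a_i x + b_i` (`i = 1, …, r`) are elliptic curves over `ℚ` with complex multiplication, of
arbitrary rank, whose Tate-Shafarevich groups are killed by some `M₀ ≥ 1`, `A = E_1 × … × E_r`, and `𝒯 ⊆ A × ℙᵐ` is a
closed subvariety whose fibres over the points of `A` modulo large primes `p` have at most `B p^κ` points. The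
starting file `SelmerSetsOfRandomCurves` considers the complete intersections (random curves on `𝒯`, if `𝒯` is irreducible
of dimension `r + κ` and `s = r + κ - 1`)

  `X_c = 𝒯 ∩ {F_1 = … = F_s = 0}`, `s ≥ κ`,

where `c ∈ ℤⁿ` is the vector of the coefficients of the forms `F_j` of multidegree `(d_j; e_j)`, and shows that for one
level `N`, `log N ≤ (log H) ^ (1 - δ)`, the `N`-Selmer set of `X_c` is empty for all but `H ^ (n - 1/5 + ε)` of the
`c`, `|c| ≤ H`. Nothing is said there about the `c` near a given vector; they are few.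

Let `f_k`, `k = 0, 1, 2, …`, be positive functions on `(a₀, ∞)`, `a₀ ≥ 0`, such that `f_k(t) / t` is nondecreasing, and such
that the sequence `f_k(t)` has exponent of convergence at most `τ` for each `t > a₀`: for instance `f_k(t) = v_k t`
(dilatations; `τ` is the exponent of convergence of `v_k > 0`, so `τ = 0` for `v_k = k!` or `2 ^ k`), `f_k(t) = t ^ (v_k)`
for exponents `v_k ≥ 1` (`τ = 0`), or the orbits of a map `g` with `g(t) > t` and `g(t) / t` nondecreasing (`τ = 0`).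

**Theorem.** For every `ε > 0` there is `δ > 0` such that for all these `f`, all `θ < 1` and all `u ∈ ℝⁿ`, `‖u‖ > a₀`, outside a
set of Hausdorff dimension at most `(n - 1/5 + ε + τ) / (1 - θ)`, and for all `C` and all large `k`, with
`r = f_k(‖u‖)`, there is ONE level `N`, `log N ≤ (log r) ^ (1 - δ)`, such that for ALL integral vectors `c` at a
distance at most `C r ^ θ` from `(r / ‖u‖) u` the variety `X_c` has no rational point and its `N`-Selmer set is empty.

If `τ + n θ < 1/5`, the dimension is smaller than `n` for small `ε`, so that this is true for almost all `u`, for instance for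
all curves with coefficients within `(k!) ^ θ` of `k! u`, `θ < 1 / (5 n)`.

Proof. The exceptional `c` are few in the dyadic boxes, and a thin set of integral vectors is seen in the windows of
few `u` (`Pool.Agent.R482.ST`, helper482; here with one dyadic level for a whole window, `Pool.Agent.V5helper64.SC`).
-/

set_option autoImplicit false

namespace Pool.Agent.Results.MP_d37f77_nt.StarshapedCurves

open MvPolynomial Pool.Agent.TH954 Filter
open SelmerSetsOfRandomCurves (curve Coeffs HasPoint Sel FewPoints Supersingular Multihomogeneous AlmostAllEmpty)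

/-- the functions `f k` are positive on `(a, ∞)`, `a ≥ 0`, and `f k x / x` is nondecreasing there -/
def Starshaped (a : ℝ) (f : ℕ → ℝ → ℝ) : Prop :=
  0 ≤ a ∧ ∀ k : ℕ, ∀ x y : ℝ, a < x → x ≤ y → 0 < f k x ∧ f k x / x ≤ f k y / y

/-- for each `x > a` the exponent of convergence of the sequence `f k x` is at most `τ` -/
def ExpLe (a : ℝ) (f : ℕ → ℝ → ℝ) (τ : ℝ) : Prop :=
  ∀ x : ℝ, a < x → ∀ t : ℝ, τ < t → Summable (fun k : ℕ => (f k x) ^ (-t))

/-- There is `δ > 0` such that for all starshaped functions `f` on `(a₀, ∞)` of exponent of convergence at most `τ` and all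
`θ < 1`, for all `u ∈ ℝⁿ`, `‖u‖ > a₀`, outside a set of Hausdorff dimension at most `(n - 1/5 + ε + τ) / (1 - θ)`, all `C` and
all large `k`, with `r = f_k(‖u‖)`, there is one level `N`, `log N ≤ (log r) ^ (1 - δ)`, such that for all
`c ∈ ℤⁿ` with `|c - (r / ‖u‖) u| ≤ C r ^ θ` the variety `X_c` has no rational point and its `N`-Selmer set is empty. -/
def AllEmptyInWindows {r s m q : ℕ} (a b : Fin r → ℤ)
    (Φ : Fin q → MvPolynomial ((Fin r × Fin 3) ⊕ Fin (m + 1)) ℤ)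
    (d : Fin s → Fin r → ℕ) (e : Fin s → ℕ) (ε : ℝ) : Prop :=
  ∃ δ : ℝ, 0 < δ ∧ ∀ (a₀ : ℝ) (f : ℕ → ℝ → ℝ) (τ θ : ℝ), Starshaped a₀ f → 0 ≤ τ → ExpLe a₀ f τ → θ < 1 →
    ∃ E : Set (Coeffs m d e → ℝ),
      dimH E ≤ ENNReal.ofReal (((Fintype.card (Coeffs m d e) : ℝ) - 1 / 5 + ε + τ) / (1 - θ)) ∧
      ∀ u : Coeffs m d e → ℝ, a₀ < ‖u‖ → u ∉ E → ∀ C : ℝ, ∃ k₀ : ℕ, ∀ k : ℕ, k₀ ≤ k →
        ∃ N : ℕ, 1 ≤ N ∧ Real.log N ≤ Real.log (f k ‖u‖) ^ (1 - δ) ∧
          ∀ c : Coeffs m d e → ℤ, (∀ x, |(c x : ℝ) - f k ‖u‖ / ‖u‖ * u x| ≤ C * (f k ‖u‖) ^ θ) →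
            ¬ HasPoint a b Φ c ∧ Sel a b Φ c N = ∅

/-- the level as a function of `r` -/
theorem level_le {δ : ℝ} (hδ : 0 < δ) : ∀ᶠ r : ℝ in atTop, ∀ x : ℝ, r ≤ x → x ≤ 3 * r →
    Real.log x ^ (1 - δ) ≤ Real.log r ^ (1 - min δ 1 / 2) := by
  obtain ⟨η, hη⟩ : ∃ η, η = min δ 1 := ⟨_, rfl⟩
  have hη0 : 0 < η := by rw [hη]; exact lt_min hδ one_pos
  have hη1 : η ≤ 1 := by rw [hη]; exact min_le_right _ _
  have hηδ : η ≤ δ := by rw [hη]; exact min_le_left _ _
  have h1 : Tendsto (fun r : ℝ => Real.log r ^ (η / 2)) atTop atTop :=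
    (tendsto_rpow_atTop (by linarith)).comp Real.tendsto_log_atTop
  filter_upwards [h1.eventually_ge_atTop 2, eventually_ge_atTop 3] with r hr hr3 x hrx hx
  rw [← hη]
  have hlog1 : 1 ≤ Real.log r := by
    rw [Real.le_log_iff_exp_le (by linarith)]
    linarith [Real.exp_one_lt_d9]
  have hlogx : Real.log r ≤ Real.log x := Real.log_le_log (by linarith) hrx
  have h2 : Real.log x ≤ 2 * Real.log r := by
    have h3 : Real.log x ≤ Real.log (3 * r) := Real.log_le_log (by linarith) hx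
    rw [Real.log_mul (by norm_num) (by linarith)] at h3
    have h4 : Real.log 3 ≤ Real.log r := Real.log_le_log (by norm_num) hr3
    linarith
  calc Real.log x ^ (1 - δ) ≤ Real.log x ^ (1 - η) :=
        Real.rpow_le_rpow_of_exponent_le (by linarith) (by linarith)
    _ ≤ (2 * Real.log r) ^ (1 - η) := Real.rpow_le_rpow (by linarith) h2 (by linarith)
    _ = 2 ^ (1 - η) * Real.log r ^ (1 - η) := Real.mul_rpow (by norm_num) (by linarith)
    _ ≤ 2 ^ (1 : ℝ) * Real.log r ^ (1 - η) :=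
        mul_le_mul_of_nonneg_right (Real.rpow_le_rpow_of_exponent_le one_le_two (by linarith)) (by positivity)
    _ ≤ Real.log r ^ (η / 2) * Real.log r ^ (1 - η) := by
        rw [Real.rpow_one]
        exact mul_le_mul_of_nonneg_right hr (by positivity)
    _ = Real.log r ^ (1 - η / 2) := by
        rw [← Real.rpow_add (by linarith)]
        congr 1
        ring

theorem windows_of {r s m q : ℕ} (a b : Fin r → ℤ)
    (Φ : Fin q → MvPolynomial ((Fin r × Fin 3) ⊕ Fin (m + 1)) ℤ)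
    (d : Fin s → Fin r → ℕ) (e : Fin s → ℕ) {ε : ℝ} (hε : 0 < ε) (h : AlmostAllEmpty a b Φ d e ε) :
    AllEmptyInWindows a b Φ d e ε := by
  classical
  obtain ⟨δ, hδ, H₀, hH⟩ := h
  refine ⟨min δ 1 / 2, by positivity, fun a₀ f τ θ hf hτ hE hθ => ?_⟩
  rcases isEmpty_or_nonempty (Coeffs m d e) with hι | hι
  · refine ⟨∅, by simp, fun u hu => ?_⟩
    exfalso
    have : u = 0 := Subsingleton.elim _ _
    rw [this, norm_zero] at hu
    exact absurd hu (not_lt.2 hf.1)
  have hcard : (1 : ℝ) ≤ Fintype.card (Coeffs m d e) := by exact_mod_cast Fintype.card_pos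
  choose! N hN1 hN2 hN3 using hH
  obtain ⟨E, hE1, hE2⟩ := Pool.Agent.V5helper64.SC.windows_level (ι := Coeffs m d e)
    (fun i c => H₀ ≤ 2 ^ i → ¬ HasPoint a b Φ c ∧ Sel a b Φ c (N (2 ^ i)) = ∅)
    (s := (Fintype.card (Coeffs m d e) : ℝ) - 1 / 5 + ε) (by linarith)
    ⟨1, fun i => by
      rw [one_mul]
      by_cases hi : H₀ ≤ 2 ^ i
      · have h1 := hN3 (2 ^ i) hi
        push_cast at h1
        refine le_trans (le_of_eq ?_) h1
        congr 2
        ext c
        simp only [Set.mem_ofPred_eq, hi, true_implies]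
      · have h1 : {z : Coeffs m d e → ℤ | (∀ x, |z x| ≤ 2 ^ i) ∧ ¬ (H₀ ≤ 2 ^ i →
            ¬ HasPoint a b Φ z ∧ Sel a b Φ z (N (2 ^ i)) = ∅)} = ∅ := by
          ext z
          simp [hi]
        rw [h1, Set.ncard_empty, Nat.cast_zero]
        exact Real.rpow_nonneg (by positivity) _⟩ hf hτ hE hθ
  refine ⟨E, hE1, fun u hu huE C => ?_⟩
  obtain ⟨k₁, hk₁⟩ := hE2 u hu huE C
  have hlim := Pool.Agent.V5helper64.SC.tendsto_values hf hτ hE hu
  obtain ⟨k₂, hk₂⟩ := eventually_atTop.1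
    ((hlim.eventually (level_le hδ)).and (hlim.eventually_ge_atTop (H₀ : ℝ)))
  refine ⟨max k₁ k₂, fun k hk => ?_⟩
  obtain ⟨i, hi1, hi2, hi3⟩ := hk₁ k ((le_max_left _ _).trans hk)
  obtain ⟨h1, h2⟩ := hk₂ k ((le_max_right _ _).trans hk)
  have h3 : H₀ ≤ 2 ^ i := by
    have : (H₀ : ℝ) ≤ (2 : ℝ) ^ i := h2.trans hi2
    exact_mod_cast this
  refine ⟨N (2 ^ i), hN1 _ h3, ?_, fun c hc => hi3 c hc h3⟩
  refine (hN2 _ h3).trans ?_
  push_cast
  exact h1 _ hi2 hi1

/-- **Finite descent for all complete intersections (curves) with coefficients near the vectors of a sequence.** -/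
theorem result (r : ℕ) (a b : Fin r → ℤ) (hE : ∀ i, Supersingular (a i) (b i))
    (M₀ : ℕ) (hM₀ : 1 ≤ M₀) (hSha : ∀ i, ShaKilledBy (curve (a i : ℚ) (b i : ℚ)) M₀)
    (κ s : ℕ) (hκ : 1 ≤ κ) (hs : κ ≤ s) (d : Fin s → Fin r → ℕ) (e : Fin s → ℕ) (ε : ℝ)
    (hε : 0 < ε) :
    -- the general family
    (∀ (m q : ℕ) (Φ : Fin q → MvPolynomial ((Fin r × Fin 3) ⊕ Fin (m + 1)) ℤ)
      (d' : Fin q → Fin r → ℕ) (e' : Fin q → ℕ), (∀ l, Multihomogeneous (Φ l) (d' l) (e' l)) →
      ∀ B : ℝ, FewPoints a b Φ κ B →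
      (B ≤ 3 / 2 ∧ (∀ j : Fin s, j.1 < κ → 2 ≤ e j) ∨ ∀ j : Fin s, j.1 < κ → 6 * B ≤ e j) →
      AllEmptyInWindows a b Φ d e ε) ∧
    -- `𝒯 = A × ℙ^κ`
    ((∀ j : Fin s, j.1 < κ → 2 ≤ e j) →
      AllEmptyInWindows (m := κ) a b (fun l : Fin 0 => l.elim0) d e ε) ∧
    -- `𝒯 = A × Y` for a hypersurface `Y : f = 0` of degree `g` in `ℙ^(κ+1)`
    (∀ (g : ℕ) (f : MvPolynomial (Fin (κ + 2)) ℤ), f.IsHomogeneous g → f ≠ 0 →
      (∀ j : Fin s, j.1 < κ → 12 * g ≤ e j) →
      AllEmptyInWindows (m := κ + 1) a b (fun _ : Fin 1 => rename Sum.inr f) d e ε) ∧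
    -- the curves `y² = x³ + a x` and `y² = x³ + b`
    (∀ a b : ℤ, a * b = 0 → (a ≠ 0 ∨ b ≠ 0) → Supersingular a b) ∧
    -- examples of starshaped functions
    (∀ (v : ℕ → ℝ) (τ : ℝ), (∀ k, 0 < v k) → (∀ t : ℝ, τ < t → Summable (fun k : ℕ => (v k) ^ (-t))) →
      Starshaped 0 (fun k x => v k * x) ∧ ExpLe 0 (fun k x => v k * x) τ) ∧
    (∀ v : ℕ → ℝ, (∀ k, 1 ≤ v k) → (∀ t : ℝ, 0 < t → Summable fun k : ℕ => Real.exp (-(t * v k))) →
      Starshaped 1 (fun k x => x ^ (v k)) ∧ ExpLe 1 (fun k x => x ^ (v k)) 0) ∧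
    (∀ (a : ℝ) (g : ℝ → ℝ), 0 ≤ a → (∀ x y : ℝ, a < x → x ≤ y → g x / x ≤ g y / y) → (∀ x : ℝ, a < x → x < g x) →
      Starshaped a (fun k x => g^[k] x) ∧ ExpLe a (fun k x => g^[k] x) 0) := by
  obtain ⟨h0, h1, h2, h3⟩ := SelmerSetsOfRandomCurves.result r a b hE M₀ hM₀ hSha κ s hκ hs d e ε hε
  exact ⟨fun m q Φ d' e' hΦ B hB he => windows_of a b Φ d e hε (h1 m q Φ d' e' hΦ B hB he),
    fun he => windows_of a b _ d e hε (h2 he),
    fun g f hf hf0 he => windows_of a b _ d e hε (h3 g f hf hf0 he), h0,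
    Pool.Agent.R482.ST.ex_mul, Pool.Agent.R482.ST.ex_pow, Pool.Agent.R482.ST.ex_orbit⟩

end Pool.Agent.Results.MP_d37f77_nt.StarshapedCurves
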