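import Pool.Agent.V5helper45.PV.Odd
import Pool.Agent.V5helper45.PV.Box
import Pool.Agent.Results.MP_d37f77_nt.TwistedCyclicCoverings

/-!
# Finite descent on the twists of cyclic coverings by the values of polynomials

Let `D : b y ^ n = ∏ k, G k (z, w)` be a curve over `ℚ` and `h` a polynomial with integral coefficients as in the
starting file `TwistedCyclicCoverings`, and consider for integers `a` and `m ≥ 2`, `m ∣ deg h`, the cyclic
coverings of `D` ramified over the zeros of `h`

  `C a : b y ^ n = ∏ k, G k (z, w)`, `a x ^ m = H (z, w)`,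

which for different `a` are twists of each other, and their étale coverings

  `D δ : G k (z, w) = δ k * y k ^ n` (all `k`), `a x ^ m = H (z, w)`,   `∏ δ k = b t ^ n`,

through which every `n`-covering of `C a` factors. The starting files show that for almost all squarefree `a`, for
almost all values `a` of a linear form along random walks and in some other families all `D δ` with points over
all `ℚ_p` are persistent: every automorphism `σ` of the field of algebraic numbers fixes a zero `β` of `h` and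
solutions `y k` of `g k (β) = δ k * y k ^ n`. For persistent classes this is in general not true.

Here `a = Φ(u)` is the value of an arbitrary polynomial, or `a = Φ(u, v_1, …, v_r)` where `Φ` is any polynomial
which vanishes on the graph `u = ρ(v)` of a rational function `ρ = B / A` with algebraic coefficients, for instance
a norm form of a number field `F`, a binary form (so that the parameter is a rational number), a product of
linear forms, a polynomial linear in one of the variables. Such values are thin sequences: on the squarefree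
numbers the theorem of the starting file says nothing on them. There is a new obstruction: if `σ` does not fix `ρ`, its
primes do not divide the values of the factor. Call a class persistent over `ρ` if the above is true for all `σ` which
fix the coefficients of `A` and `B` (over the base field `ℚ(ρ)`, if `r = 0`).

(1) Let `ρ = B / A` be a root of multiplicity `e` of `Φ ∈ ℤ[v_1, …, v_r][u]`. For all `(u, v) ∈ ℤ ^ (r + 1)` outside a
pronull set (for all `M` its closure in the product of the `ℤ_p ^ (r + 1)`, `p ∤ M`, has Haar measure zero), for all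
`m ∣ deg h`, `m ∤ e`, all coverings `D δ` of `C (Φ (u, v))` with points over all `ℚ_p` are persistent over `ρ`.

(2) In particular this is true for 100% of the `(u, v)` in boxes.

(3) The case of one variable: for `ε > 0` there is `q` such that the exceptional `u` are in at most `ε q` residue
classes modulo `q`.

(4) If `n = 2`, the zeros of `h` are in an extension of degree a power of two (e.g. `h` is a product of
polynomials of degree `1` and `2`) and `f` is an irreducible factor of `Φ ∈ ℤ[u]` of odd degree and multiplicity `e`,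
then for almost all `u` and all `m ∣ deg h`, `m ∤ e`, only the persistent classes survive (persistent over `ℚ`).

(5) If moreover there is no persistent class, then for almost all `u` no covering `D δ` of `C (Φ u)` has points over
all `ℚ_p`: its `2`-Selmer set is empty and it has no rational points.

(6) If moreover the zeros of `h` are one or two integers, then for almost all `u` the coverings `D δ` of `C (Φ u)`
satisfy the Hasse principle: those with points over all `ℚ_p` have rational points.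

(7) Example: `n = 2`, `D : y² = (z² + 51) (z² - 1)`, `h = (z² + 1) (z² - 17) (z² + 17)`, `m ∈ {2, 3, 6}`. All the curves
`C a` have points over `ℝ` and all `ℚ_p`. For every polynomial `Φ` with an irreducible factor of odd degree and
multiplicity `e`, for almost all `u`, all `C (Φ u)` with `m ∤ e` have no covering `D δ` with points over all `ℚ_p`, and no
rational points. (The zeros `β` of `h` and the `y k` are in a field of degree a power of two.)

Proof of (1). A class not persistent over `ρ` has a `σ` which fixes `ρ`. Take primes `p` with Frobenius element `σ` in a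
field which contains the coefficients of `A`, `B` and the finitely many points: modulo `p` there is no point over a
zero of `h`; but `A`, `B` are defined over `𝔽_p`, so that there are many points `(B(v) / A(v), v)` on the hypersurface, at
which the irreducible factor `f` over `ℚ` with the zero `ρ` vanishes to the order one and the other factors do not vanish.
So for a proportion `≥ 1 / (4 p)` of the `(u, v)` modulo `p²` the value `Φ (u, v)` is divisible by `p` exactly `e` times,
and if `m ∤ e` then the points of `D δ` over `ℚ_p` reduce to zeros of `h`. The sum of the `1 / p` over these primes diverges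
(theorem of Chebotarev).
-/

set_option autoImplicit false

namespace Pool.Agent.Results.MP_d37f77_nt.TwistsByPolynomialValues

open Polynomial Pool.Agent.R925.FD
open TwistedCyclicCoverings (Admissible LocallySoluble)
open Pool.Agent.N24.RW (ProNull)

/-- The value of `Φ ∈ ℤ[v][u]` at an integral point `c`: `u = c none`, `v i = c (some i)`. -/
noncomputable def value {κ : Type} (Φ : (MvPolynomial κ ℤ)[X]) (c : Option κ → ℤ) : ℤ :=
  (Φ.map (MvPolynomial.eval fun i => c (some i))).eval (c none)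

/-- The rational function `B / A` of the variables `v` with algebraic coefficients is a root of `Φ ∈ ℤ[v][u]` of
multiplicity `e`. -/
def IsRootOfMult {κ : Type} (Φ : (MvPolynomial κ ℤ)[X]) (A B : MvPolynomial κ (AlgebraicClosure ℚ)) (e : ℕ) : Prop :=
  (Φ.map ((algebraMap (MvPolynomial κ (AlgebraicClosure ℚ)) (FractionRing (MvPolynomial κ (AlgebraicClosure ℚ)))).comp
    (MvPolynomial.map (Int.castRingHom (AlgebraicClosure ℚ))))).rootMultiplicity
    (algebraMap _ (FractionRing (MvPolynomial κ (AlgebraicClosure ℚ))) B /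
      algebraMap _ (FractionRing (MvPolynomial κ (AlgebraicClosure ℚ))) A) = e

/-- The class `δ` is persistent over `B / A`: every automorphism `σ` of the field of algebraic numbers which fixes
the coefficients of `A` and `B` fixes a zero `β` of `h` and, for every `k`, a solution `y` of `g k (β) = δ k * y ^ n`. -/
def PersistentOver {K κ : Type} (n : ℕ) (g : K → ℤ[X]) (h : ℤ[X])
    (A B : MvPolynomial κ (AlgebraicClosure ℚ)) (δ : K → ℚ) : Prop :=
  ∀ σ : AlgebraicClosure ℚ ≃ₐ[ℚ] AlgebraicClosure ℚ, (∀ μ, σ (A.coeff μ) = A.coeff μ) →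
    (∀ μ, σ (B.coeff μ) = B.coeff μ) → ∃ β, σ β = β ∧ aeval β h = 0 ∧
      ∀ k, ∃ y, σ y = y ∧ aeval β (g k) = (δ k : AlgebraicClosure ℚ) * y ^ n

/-- The class `δ` is persistent over the algebraic number `ρ`: every automorphism `σ` of the field of algebraic
numbers which fixes `ρ` fixes a zero `β` of `h` and, for every `k`, a solution `y` of `g k (β) = δ k * y ^ n`. -/
def PersistentAt {K : Type} (n : ℕ) (g : K → ℤ[X]) (h : ℤ[X]) (ρ : AlgebraicClosure ℚ) (δ : K → ℚ) : Prop :=
  ∀ σ : AlgebraicClosure ℚ ≃ₐ[ℚ] AlgebraicClosure ℚ, σ ρ = ρ → ∃ β, σ β = β ∧ aeval β h = 0 ∧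
    ∀ k, ∃ y, σ y = y ∧ aeval β (g k) = (δ k : AlgebraicClosure ℚ) * y ^ n

/-- For all `m ≥ 2` which divide the degree of `h` and do not divide `e`, all the coverings `D δ` of `C a` with
points over all the fields `ℚ_p` have the property `Per`. -/
def Survivors {K : Type} [Fintype K] (n : ℕ) (b : ℤ) (g : K → ℤ[X]) (h : ℤ[X]) (e : ℕ) (a : ℤ)
    (Per : (K → ℚ) → Prop) : Prop :=
  ∀ m : ℕ, 2 ≤ m → ¬ m ∣ e → m ∣ h.natDegree → ∀ δ : K → ℚ, IsClass n b δ → LocallySoluble n m a g h δ → Per δ

/-- For every `ε > 0` there is `q ≥ 1` such that `B` is contained in at most `ε q` residue classes modulo `q`. -/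
def Thin (B : Set ℤ) : Prop :=
  ∀ ε : ℝ, 0 < ε → ∃ q : ℕ, 0 < q ∧ ∃ S : Set (ZMod q), (S.ncard : ℝ) ≤ ε * q ∧ ∀ u ∈ B, ((u : ℤ) : ZMod q) ∈ S

/-- For every automorphism `σ` of the field of algebraic numbers some power `σ ^ (2 ^ N)` fixes all zeros of `h`. -/
def TwoClosed (h : ℤ[X]) : Prop :=
  ∀ σ : AlgebraicClosure ℚ ≃ₐ[ℚ] AlgebraicClosure ℚ, ∃ N : ℕ, ∀ β, aeval β h = 0 → (σ ^ (2 ^ N)) β = β

/-- `f` is irreducible over `ℚ`, of odd degree, and divides `Φ` exactly `e` times (over `ℚ`). -/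
def OddFactor (Φ f : ℤ[X]) (e : ℕ) : Prop :=
  Irreducible (f.map (Int.castRingHom ℚ)) ∧ Odd f.natDegree ∧
    (f.map (Int.castRingHom ℚ)) ^ e ∣ Φ.map (Int.castRingHom ℚ) ∧
    ¬ (f.map (Int.castRingHom ℚ)) ^ (e + 1) ∣ Φ.map (Int.castRingHom ℚ)

lemma value_eq {κ : Type} (Φ : (MvPolynomial κ ℤ)[X]) (c : Option κ → ℤ) :
    value Φ c = Pool.Agent.V5helper45.PV.val Φ (fun i => c (some i)) (c none) := by
  have h : (MvPolynomial.eval fun i => c (some i)) =
      MvPolynomial.eval₂Hom (Int.castRingHom ℤ) (fun i => c (some i)) := by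
    apply MvPolynomial.ringHom_ext
    · intro r
      simp
    · intro i
      simp
  unfold value Pool.Agent.V5helper45.PV.val
  rw [eval_map, h]

lemma Thin.mono {B B' : Set ℤ} (h : B ⊆ B') (hB : Thin B') : Thin B := by
  intro ε hε
  obtain ⟨q, hq, S, hS, hS'⟩ := hB ε hε
  exact ⟨q, hq, S, hS, fun u hu => hS' u (h hu)⟩

/-- a rational point gives a covering with points over all `ℚ_p` -/
lemma of_point {K : Type} [Fintype K] {n : ℕ} {b : ℤ} {g : K → ℤ[X]} {h : ℤ[X]} (hA : Admissible n b g h) {m : ℕ}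
    {a : ℤ} (hC : CurveHasPoint n m b a g h ℚ) : ∃ δ : K → ℚ, IsClass n b δ ∧ LocallySoluble n m a g h δ := by
  classical
  obtain ⟨δ, h2, h3⟩ := exists_class n m hA.n_pos b a hA.b_ne g h hA.g_ne hA.coprime hC
  exact ⟨δ, h2, fun p _ => Pool.Agent.N97.RO.point_padic h3 p⟩

lemma exh_twoClosed : TwoClosed exh := by
  intro σ
  refine ⟨1, fun β hβ => ?_⟩
  have hq : ∃ q : ℚ, β ^ 2 = (q : AlgebraicClosure ℚ) := by
    rcases aeval_exh β hβ with h | h | h
    · exact ⟨-1, by rw [h]; push_cast; ring⟩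
    · exact ⟨17, by rw [h]; push_cast; ring⟩
    · exact ⟨-17, by rw [h]; push_cast; ring⟩
  obtain ⟨q, hq⟩ := hq
  have h1 : (σ β) ^ 2 = β ^ 2 := by
    rw [← map_pow, hq, map_ratCast]
  rw [pow_one, pow_two, AlgEquiv.mul_apply]
  rcases sq_eq_sq_iff_eq_or_eq_neg.1 h1 with h2 | h2
  · rw [h2, h2]
  · rw [h2, map_neg, h2, neg_neg]

theorem result :
    -- (1) several variables
    (∀ (K : Type) [Fintype K] (n : ℕ) (b : ℤ) (g : K → ℤ[X]) (h : ℤ[X]), Admissible n b g h →
      ∀ (κ : Type) [Fintype κ] (Φ : (MvPolynomial κ ℤ)[X]) (A B : MvPolynomial κ (AlgebraicClosure ℚ)) (e : ℕ),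
        Φ ≠ 0 → A ≠ 0 → IsRootOfMult Φ A B e →
          ProNull {c : Option κ → ℤ | ¬ Survivors n b g h e (value Φ c) (PersistentOver n g h A B)}) ∧
    -- (2) boxes
    (∀ (K : Type) [Fintype K] (n : ℕ) (b : ℤ) (g : K → ℤ[X]) (h : ℤ[X]), Admissible n b g h →
      ∀ (κ : Type) [Fintype κ] (Φ : (MvPolynomial κ ℤ)[X]) (A B : MvPolynomial κ (AlgebraicClosure ℚ)) (e : ℕ),
        Φ ≠ 0 → A ≠ 0 → IsRootOfMult Φ A B e → ∀ ε : ℝ, 0 < ε → ∃ X₀ : ℕ, ∀ X : ℕ, X₀ ≤ X →
          (({c : Option κ → ℤ | (∀ i, |c i| ≤ X) ∧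
            ¬ Survivors n b g h e (value Φ c) (PersistentOver n g h A B)}.ncard : ℕ) : ℝ) ≤
              ε * (2 * (X : ℝ) + 1) ^ (Fintype.card κ + 1)) ∧
    -- (3) one variable
    (∀ (K : Type) [Fintype K] (n : ℕ) (b : ℤ) (g : K → ℤ[X]) (h : ℤ[X]), Admissible n b g h →
      ∀ (Φ : ℤ[X]) (ρ : AlgebraicClosure ℚ), Φ ≠ 0 →
        Thin {u : ℤ | ¬ Survivors n b g h ((Φ.map (Int.castRingHom (AlgebraicClosure ℚ))).rootMultiplicity ρ)
          (Φ.eval u) (PersistentAt n g h ρ)}) ∧
    -- (4) a factor of odd degree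
    (∀ (K : Type) [Fintype K] (b : ℤ) (g : K → ℤ[X]) (h : ℤ[X]), Admissible 2 b g h → TwoClosed h →
      ∀ (Φ f : ℤ[X]) (e : ℕ), OddFactor Φ f e →
        Thin {u : ℤ | ¬ Survivors 2 b g h e (Φ.eval u) (Persistent 2 g h)}) ∧
    -- (5) no persistent class
    (∀ (K : Type) [Fintype K] (b : ℤ) (g : K → ℤ[X]) (h : ℤ[X]), Admissible 2 b g h → TwoClosed h →
      (∀ δ, IsClass 2 b δ → ¬ Persistent 2 g h δ) → ∀ (Φ f : ℤ[X]) (e : ℕ), OddFactor Φ f e →
        Thin {u : ℤ | ¬ ∀ m : ℕ, 2 ≤ m → ¬ m ∣ e → m ∣ h.natDegree →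
          (¬ ∃ δ : K → ℚ, IsClass 2 b δ ∧ LocallySoluble 2 m (Φ.eval u) g h δ) ∧
            ¬ CurveHasPoint 2 m b (Φ.eval u) g h ℚ}) ∧
    -- (6) the Hasse principle for the coverings
    (∀ (K : Type) [Fintype K] (b : ℤ) (g : K → ℤ[X]) (h : ℤ[X]) (α₁ α₂ : ℤ), Admissible 2 b g h →
      (∀ β : AlgebraicClosure ℚ, aeval β h = 0 ↔ β = α₁ ∨ β = α₂) → ∀ (Φ f : ℤ[X]) (e : ℕ), OddFactor Φ f e →
        Thin {u : ℤ | ¬ ∀ m : ℕ, 2 ≤ m → ¬ m ∣ e → m ∣ h.natDegree → ∀ δ : K → ℚ, IsClass 2 b δ →
          LocallySoluble 2 m (Φ.eval u) g h δ → CoveringHasPoint 2 m (Φ.eval u) g h δ ℚ}) ∧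
    -- (7) the example
    ((∀ (Φ f : ℤ[X]) (e : ℕ), OddFactor Φ f e → Thin {u : ℤ | ¬ ∀ m ∈ ({2, 3, 6} : Set ℕ), ¬ m ∣ e →
        (¬ ∃ δ : Fin 2 → ℚ, IsClass 2 1 δ ∧ LocallySoluble 2 m (Φ.eval u) exg exh δ) ∧
          ¬ CurveHasPoint 2 m 1 (Φ.eval u) exg exh ℚ}) ∧
      ∀ (a : ℤ) (m : ℕ), m ≠ 0 → CurveHasPoint 2 m 1 a exg exh ℝ ∧
        ∀ (p : ℕ) [Fact p.Prime], CurveHasPoint 2 m 1 a exg exh ℚ_[p]) := by
  have part1 : ∀ (K : Type) [Fintype K] (n : ℕ) (b : ℤ) (g : K → ℤ[X]) (h : ℤ[X]), Admissible n b g h →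
      ∀ (κ : Type) [Fintype κ] (Φ : (MvPolynomial κ ℤ)[X]) (A B : MvPolynomial κ (AlgebraicClosure ℚ)) (e : ℕ),
        Φ ≠ 0 → A ≠ 0 → IsRootOfMult Φ A B e →
          ProNull {c : Option κ → ℤ | ¬ Survivors n b g h e (value Φ c) (PersistentOver n g h A B)} := by
    intro K _ n b g h hA κ _ Φ A B e hΦ hA0 hr
    refine (Pool.Agent.N24.RW.clo (Option κ)).1 _ _ ?_
      (Pool.Agent.V5helper45.PV.null_main' Pool.Agent.N24.RW.crit Pool.Agent.N24.RW.clo n hA.n_pos b hA.b_ne g h
        hA.g_ne hA.h_ne hA.deg hA.coprime hA.coprime_h Φ hΦ A B hA0 e hr)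
    intro c hc
    rw [Set.mem_ofPred_eq] at hc ⊢
    intro hcon
    apply hc
    intro m _ hm hmh δ hcl hloc
    refine hcon m hm hmh δ hcl fun p _ => ?_
    rw [← value_eq]
    exact hloc p
  have part4 : ∀ (K : Type) [Fintype K] (b : ℤ) (g : K → ℤ[X]) (h : ℤ[X]), Admissible 2 b g h → TwoClosed h →
      ∀ (Φ f : ℤ[X]) (e : ℕ), OddFactor Φ f e →
        Thin {u : ℤ | ¬ Survivors 2 b g h e (Φ.eval u) (Persistent 2 g h)} := by
    intro K _ b g h hA hT Φ f e hf
    have hΦ : Φ ≠ 0 := by
      rintro rfl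
      apply hf.2.2.2
      rw [Polynomial.map_zero]
      exact dvd_zero _
    refine Thin.mono ?_ (Pool.Agent.V5helper45.PV.odd_null b hA.b_ne g h hA.g_ne hA.h_ne hA.deg hA.coprime
      hA.coprime_h hT Φ f hΦ hf.1 hf.2.1 e hf.2.2.1 hf.2.2.2)
    intro u hu
    rw [Set.mem_ofPred_eq] at hu ⊢
    intro hcon
    apply hu
    intro m _ hm hmh δ hcl hloc
    exact hcon m hm hmh δ hcl fun p _ => hloc p
  have part5 : ∀ (K : Type) [Fintype K] (b : ℤ) (g : K → ℤ[X]) (h : ℤ[X]), Admissible 2 b g h → TwoClosed h →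
      (∀ δ, IsClass 2 b δ → ¬ Persistent 2 g h δ) → ∀ (Φ f : ℤ[X]) (e : ℕ), OddFactor Φ f e →
        Thin {u : ℤ | ¬ ∀ m : ℕ, 2 ≤ m → ¬ m ∣ e → m ∣ h.natDegree →
          (¬ ∃ δ : K → ℚ, IsClass 2 b δ ∧ LocallySoluble 2 m (Φ.eval u) g h δ) ∧
            ¬ CurveHasPoint 2 m b (Φ.eval u) g h ℚ} := by
    intro K _ b g h hA hT hnp Φ f e hf
    refine Thin.mono ?_ (part4 K b g h hA hT Φ f e hf)
    intro u hu
    rw [Set.mem_ofPred_eq] at hu ⊢
    intro hcon
    apply hu
    intro m hm2 hm hmh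
    have h1 : ¬ ∃ δ : K → ℚ, IsClass 2 b δ ∧ LocallySoluble 2 m (Φ.eval u) g h δ := by
      rintro ⟨δ, h2, h3⟩
      exact hnp δ h2 (hcon m hm2 hm hmh δ h2 h3)
    exact ⟨h1, fun hC => h1 (of_point hA hC)⟩
  refine ⟨part1, ?_, ?_, part4, part5, ?_, ?_, ?_⟩
  · intro K _ n b g h hA κ _ Φ A B e hΦ hA0 hr ε hε
    obtain ⟨X₀, hX⟩ := Pool.Agent.V5helper45.PV.box_density _ (part1 K n b g h hA κ Φ A B e hΦ hA0 hr) ε hε
    refine ⟨X₀, fun X h1 => ?_⟩
    have h2 := hX X h1
    rw [Fintype.card_option] at h2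
    exact h2
  · intro K _ n b g h hA Φ ρ hΦ
    refine Thin.mono ?_ (Pool.Agent.V5helper45.PV.uni_null n hA.n_pos b hA.b_ne g h hA.g_ne hA.h_ne hA.deg hA.coprime
      hA.coprime_h Φ hΦ {ρ} _ (fun ρ' hρ' => by rw [Finset.mem_singleton.1 hρ']))
    intro u hu
    rw [Set.mem_ofPred_eq] at hu ⊢
    intro hcon
    apply hu
    intro m _ hm hmh δ hcl hloc
    exact hcon m hm hmh δ hcl (fun p _ => hloc p) ρ (Finset.mem_singleton_self ρ)
  · intro K _ b g h α₁ α₂ hA hz Φ f e hf
    have hT : TwoClosed h := by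
      intro σ
      refine ⟨0, fun β hβ => ?_⟩
      rw [pow_zero, pow_one]
      rcases (hz β).1 hβ with h1 | h1
      · rw [h1, map_intCast]
      · rw [h1, map_intCast]
    refine Thin.mono ?_ (part4 K b g h hA hT Φ f e hf)
    intro u hu
    rw [Set.mem_ofPred_eq] at hu ⊢
    intro hcon
    apply hu
    intro m hm2 hm hmh δ hcl hloc
    exact Pool.Agent.N97.RO.pers_point b g h α₁ α₂ hA.h_ne hA.coprime_h hz δ hcl (hcon m hm2 hm hmh δ hcl hloc) _ m
      (by omega)
  · intro Φ f e hf
    have hex := TwistedCyclicCoverings.result.2.2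
    refine Thin.mono ?_ (part5 (Fin 2) 1 exg exh hex.1 exh_twoClosed hex.2.1 Φ f e hf)
    intro u hu
    rw [Set.mem_ofPred_eq] at hu ⊢
    intro hcon
    apply hu
    intro m hm hme
    have hm' : m = 2 ∨ m = 3 ∨ m = 6 := by simpa using hm
    refine hcon m (by omega) hme ?_
    rw [exh_deg]
    rcases hm' with rfl | rfl | rfl <;> norm_num
  · exact TwistedCyclicCoverings.result.2.2.2.2

end Pool.Agent.Results.MP_d37f77_nt.TwistsByPolynomialValues
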