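import Pool.Agent.V5helper45.PQ.Rate
import Pool.Agent.Results.MP_d37f77_nt.TwistsByPolynomialValues

/-!
# Finite descent on the twists of cyclic coverings by the values of polynomials at primes

As in the files `TwistedCyclicCoverings` (starting file) and `TwistsByPolynomialValues` we consider the cyclic coverings

  `C a : b y ^ n = ∏ k, G k (z, w)`, `a x ^ m = H (z, w)`

of the curve `D : b y ^ n = ∏ k, G k (z, w)`, which for different integers `a` are twists of each other, and their étale
coverings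

  `D δ : G k (z, w) = δ k * y k ^ n` (all `k`), `a x ^ m = H (z, w)`,   `∏ δ k = b t ^ n`,

through which every `n`-covering of `C a` factors. The earlier files show that for almost all parameters `a` in several
families of integers only the persistent classes `δ` survive (the `D δ` with points over all `ℚ_p`). All these families
are described by conditions on the *integral* vectors. Here some or all variables are *prime numbers*, which are a set of
density zero, on which the former results say nothing, for instance the twists by shifted primes `p + c`, by the values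
`F(p)` of polynomials at primes and by sums of two primes.

(1) Let `a = Φ(u, v_1, …, v_r)`, where `ρ = B / A` is a root of multiplicity `e` of `Φ ∈ ℤ[v_1, …, v_r][u]`, `A`, `B`
polynomials in `v` with algebraic coefficients, and let `P` be a set of variables; if `u` is in `P` then let `ρ ≠ 0`
(for `Φ = u`, the twists by the primes themselves, the assertion is false). Consider the vectors `(u, v)` of natural
numbers whose coordinates in `P` are primes. Then all classes surviving for an `m` with `m ∣ deg h`, `m ∤ e` are persistent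
over `ρ`, except for few `(u, v)`: for all `ε > 0` every box with the sides `(x_i, x_i + g_i]`, `g_i ≥ g₀(ε)`, wherever it
is, contains at most `ε ∏ g_i / log g_i · ∏ g_i` exceptional vectors (the first product is over the variables in `P`, the
second one over the others), that is, for boxes `[1, g] ^ (r + 1)` the proportion `O(ε)` of all these vectors.

(2) If there is no class which is persistent over `ρ`, then outside such an exceptional set no covering `D δ` has points
over all `ℚ_p`, and `C a` has no rational points.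

(3) Let `n = 2`, let the zeros of `h` be in an extension of degree a power of two, and let `f`, with `f(0) ≠ 0`, be an
irreducible factor of `Φ ∈ ℤ[u]` of odd degree and multiplicity `e`. Then, up to few primes `p`, for all `m ∣ deg h`, `m ∤ e`,
all classes surviving for `a = Φ(p)` are persistent over `ℚ`. Here few means at most `C g / (log g) ^ (1 + θ)` primes in every
interval of length `g ≥ 2`, wherever it is, for some `θ > 0` and `C`.

(4) If moreover there is no persistent class, then for all primes `p` up to few no covering `D δ` of `C (Φ p)` has points over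
all `ℚ_p`: its `2`-Selmer set is empty and it has no rational points.

(5) If moreover the zeros of `h` are one or two integers, then for all primes `p` up to few the coverings `D δ` of
`C (Φ p)` satisfy the Hasse principle.

(6) Example: `n = 2`, `D : y² = (z² + 51) (z² - 1)`, `h = (z² + 1) (z² - 17) (z² + 17)`, `m ∈ {2, 3, 6}`. All the curves
`C a` have points over `ℝ` and all `ℚ_p`, there is no persistent class, and so (4) holds for them, and (2) if `A`, `B`
have integral coefficients, for instance for the twists by `p + c` and `p + p'`, `p`, `p'` primes, `c ≠ 0`.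

Proof. The variables in `P` are made units: `Φ` is replaced by `Φ' = Φ W ^ t`, where `W` is the product of the variables in
`P` and `t > e` is divisible by `deg h`. The curves `C (Φ' (u, v))` and `C (Φ (u, v))` are isomorphic if no coordinate in
`P` is zero, `ρ` is a root of multiplicity `e` of `Φ'`, and if `Φ' (u, v)` is divisible by a prime `q` exactly `e` times, then
the coordinates in `P` are units modulo `q`. So the local analysis of `TwistsByPolynomialValues` for `Φ'` gives for each
class which is not persistent over `ρ` many primes `q` (a positive proportion), and at least `q ^ (2 (r + 1)) / (4 q)`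
residue vectors modulo `q²` at which the class does not survive, all of them with units at the places in `P`. By the
Chinese remainder theorem the vectors at which the class survives are in at most
`ε φ(N) ^ |P| N ^ (r + 1 - |P|)` residue classes modulo some `N` (of the vectors with units at the places in `P`), and each
class contains at most the expected number of vectors of the box, up to a constant factor, by the theorem of Brun and
Titchmarsh. In (3)-(6), where there is one variable, for these `q` there is a residue class modulo `q` (not `0`), the class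
of a root of `f`, at which the class `δ` does not survive, except for one class modulo `q²`. We sieve the integers of
the interval by the class `0` modulo all primes `q ≤ g ^ c` and by these classes for the `q > (log g)²` (fundamental lemma of
the sieve, `Pool.Agent.TH423.SH.fll`), and use the theorems of Mertens and Chebotarev.
-/

set_option autoImplicit false

namespace Pool.Agent.Results.MP_d37f77_nt.TwistsAtPrimes

open Polynomial Pool.Agent.R925.FD
open TwistedCyclicCoverings (Admissible LocallySoluble)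
open TwistsByPolynomialValues (value IsRootOfMult PersistentOver Survivors TwoClosed OddFactor)

open Classical in
/-- The size of a side of length `g`: `g / log g` for the coordinates which are primes (the places `i` in `P`), and
`g` for the other coordinates. -/
noncomputable def size {ι : Type} (P : Set ι) (i : ι) (g : ℕ) : ℝ := if i ∈ P then (g : ℝ) / Real.log g else g

/-- Let `B` be a set of integral vectors. For every `ε > 0` there is `g₀` such that every box with the sides
`(u i, u i + g i]`, `g i ≥ g₀`, contains at most `ε` times the product of the sizes of the sides vectors `c ∈ B` whose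
coordinates at the places in `P` are prime numbers. -/
def Rare {ι : Type} [Fintype ι] (P : Set ι) (B : Set (ι → ℤ)) : Prop :=
  ∀ ε : ℝ, 0 < ε → ∃ g₀ : ℕ, ∀ u g : ι → ℕ, (∀ i, g₀ ≤ g i) →
    (({c : ι → ℕ | (∀ i, u i < c i ∧ c i ≤ u i + g i) ∧ (∀ i ∈ P, (c i).Prime) ∧
      (fun i => (c i : ℤ)) ∈ B}.ncard : ℕ) : ℝ) ≤ ε * ∏ i, size P i (g i)

/-- There are `θ > 0` and `C` such that every interval `(x, x + g]` with `g ≥ 2` contains at most
`C g / (log g) ^ (1 + θ)` prime numbers from `B`. -/
def RarePrimes (B : Set ℤ) : Prop :=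
  ∃ θ C : ℝ, 0 < θ ∧ ∀ x g : ℕ, 2 ≤ g →
    (({p : ℕ | x < p ∧ p ≤ x + g ∧ p.Prime ∧ (p : ℤ) ∈ B}.ncard : ℕ) : ℝ) ≤ C * (g / Real.log g ^ (1 + θ))

lemma rare_iff {ι : Type} [Fintype ι] (P : Set ι) (B : Set (ι → ℤ)) :
    Rare P B ↔ Pool.Agent.V5helper45.PQ.Few P B := Iff.rfl

lemma Rare.mono {ι : Type} [Fintype ι] {P : Set ι} {B B' : Set (ι → ℤ)} (h : B ⊆ B') (hB : Rare P B') : Rare P B :=
  Pool.Agent.V5helper45.PQ.Few.mono h hB

lemma RarePrimes.mono {B B' : Set ℤ} (h : B ⊆ B') (hB : RarePrimes B') : RarePrimes B := by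
  obtain ⟨θ, C, h1, h2⟩ := hB
  refine ⟨θ, C, h1, fun x g hg => le_trans ?_ (h2 x g hg)⟩
  have h3 : {p : ℕ | x < p ∧ p ≤ x + g ∧ p.Prime ∧ (p : ℤ) ∈ B} ⊆
      {p : ℕ | x < p ∧ p ≤ x + g ∧ p.Prime ∧ (p : ℤ) ∈ B'} := fun p hp => ⟨hp.1, hp.2.1, hp.2.2.1, h hp.2.2.2⟩
  exact_mod_cast Set.ncard_le_ncard h3 (Pool.Agent.V5helper45.PQ.rate_fin x g B')

theorem result :
    -- (1) several variables
    (∀ (K : Type) [Fintype K] (n : ℕ) (b : ℤ) (g : K → ℤ[X]) (h : ℤ[X]), Admissible n b g h → 0 < h.natDegree →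
      ∀ (κ : Type) [Fintype κ] (P : Set (Option κ)) (Φ : (MvPolynomial κ ℤ)[X])
        (A B : MvPolynomial κ (AlgebraicClosure ℚ)) (e : ℕ),
        Φ ≠ 0 → A ≠ 0 → (none ∈ P → B ≠ 0) → IsRootOfMult Φ A B e →
          Rare P {c : Option κ → ℤ | ¬ Survivors n b g h e (value Φ c) (PersistentOver n g h A B)}) ∧
    -- (2) no class is persistent over the root
    (∀ (K : Type) [Fintype K] (n : ℕ) (b : ℤ) (g : K → ℤ[X]) (h : ℤ[X]), Admissible n b g h → 0 < h.natDegree →
      ∀ (κ : Type) [Fintype κ] (P : Set (Option κ)) (Φ : (MvPolynomial κ ℤ)[X])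
        (A B : MvPolynomial κ (AlgebraicClosure ℚ)) (e : ℕ),
        Φ ≠ 0 → A ≠ 0 → (none ∈ P → B ≠ 0) → IsRootOfMult Φ A B e →
        (∀ δ, IsClass n b δ → ¬ PersistentOver n g h A B δ) →
          Rare P {c : Option κ → ℤ | ¬ ∀ m : ℕ, 2 ≤ m → ¬ m ∣ e → m ∣ h.natDegree →
            (¬ ∃ δ : K → ℚ, IsClass n b δ ∧ LocallySoluble n m (value Φ c) g h δ) ∧
              ¬ CurveHasPoint n m b (value Φ c) g h ℚ}) ∧
    -- (3) primes, a factor of odd degree
    (∀ (K : Type) [Fintype K] (b : ℤ) (g : K → ℤ[X]) (h : ℤ[X]), Admissible 2 b g h → 0 < h.natDegree →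
      TwoClosed h → ∀ (Φ f : ℤ[X]) (e : ℕ), OddFactor Φ f e → f.eval 0 ≠ 0 →
        RarePrimes {p : ℤ | ¬ Survivors 2 b g h e (Φ.eval p) (Persistent 2 g h)}) ∧
    -- (4) no persistent class
    (∀ (K : Type) [Fintype K] (b : ℤ) (g : K → ℤ[X]) (h : ℤ[X]), Admissible 2 b g h → 0 < h.natDegree →
      TwoClosed h → (∀ δ, IsClass 2 b δ → ¬ Persistent 2 g h δ) → ∀ (Φ f : ℤ[X]) (e : ℕ), OddFactor Φ f e →
        f.eval 0 ≠ 0 → RarePrimes {p : ℤ | ¬ ∀ m : ℕ, 2 ≤ m → ¬ m ∣ e → m ∣ h.natDegree →
          (¬ ∃ δ : K → ℚ, IsClass 2 b δ ∧ LocallySoluble 2 m (Φ.eval p) g h δ) ∧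
            ¬ CurveHasPoint 2 m b (Φ.eval p) g h ℚ}) ∧
    -- (5) the Hasse principle for the coverings
    (∀ (K : Type) [Fintype K] (b : ℤ) (g : K → ℤ[X]) (h : ℤ[X]) (α₁ α₂ : ℤ), Admissible 2 b g h →
      0 < h.natDegree → (∀ β : AlgebraicClosure ℚ, aeval β h = 0 ↔ β = α₁ ∨ β = α₂) →
      ∀ (Φ f : ℤ[X]) (e : ℕ), OddFactor Φ f e → f.eval 0 ≠ 0 →
        RarePrimes {p : ℤ | ¬ ∀ m : ℕ, 2 ≤ m → ¬ m ∣ e → m ∣ h.natDegree → ∀ δ : K → ℚ, IsClass 2 b δ →
          LocallySoluble 2 m (Φ.eval p) g h δ → CoveringHasPoint 2 m (Φ.eval p) g h δ ℚ}) ∧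
    -- (6) the example
    ((∀ (Φ f : ℤ[X]) (e : ℕ), OddFactor Φ f e → f.eval 0 ≠ 0 →
        RarePrimes {p : ℤ | ¬ ∀ m ∈ ({2, 3, 6} : Set ℕ), ¬ m ∣ e →
          (¬ ∃ δ : Fin 2 → ℚ, IsClass 2 1 δ ∧ LocallySoluble 2 m (Φ.eval p) exg exh δ) ∧
            ¬ CurveHasPoint 2 m 1 (Φ.eval p) exg exh ℚ}) ∧
      (∀ (κ : Type) [Fintype κ] (P : Set (Option κ)) (Φ : (MvPolynomial κ ℤ)[X]) (A B : MvPolynomial κ ℤ) (e : ℕ),
        Φ ≠ 0 → A ≠ 0 → (none ∈ P → B ≠ 0) →
        IsRootOfMult Φ (A.map (Int.castRingHom _)) (B.map (Int.castRingHom _)) e →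
          Rare P {c : Option κ → ℤ | ¬ ∀ m ∈ ({2, 3, 6} : Set ℕ), ¬ m ∣ e →
            (¬ ∃ δ : Fin 2 → ℚ, IsClass 2 1 δ ∧ LocallySoluble 2 m (value Φ c) exg exh δ) ∧
              ¬ CurveHasPoint 2 m 1 (value Φ c) exg exh ℚ}) ∧
      ∀ (a : ℤ) (m : ℕ), m ≠ 0 → CurveHasPoint 2 m 1 a exg exh ℝ ∧
        ∀ (p : ℕ) [Fact p.Prime], CurveHasPoint 2 m 1 a exg exh ℚ_[p]) := by
  have part1 : ∀ (K : Type) [Fintype K] (n : ℕ) (b : ℤ) (g : K → ℤ[X]) (h : ℤ[X]), Admissible n b g h →
      0 < h.natDegree → ∀ (κ : Type) [Fintype κ] (P : Set (Option κ)) (Φ : (MvPolynomial κ ℤ)[X])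
        (A B : MvPolynomial κ (AlgebraicClosure ℚ)) (e : ℕ),
        Φ ≠ 0 → A ≠ 0 → (none ∈ P → B ≠ 0) → IsRootOfMult Φ A B e →
          Rare P {c : Option κ → ℤ | ¬ Survivors n b g h e (value Φ c) (PersistentOver n g h A B)} := by
    intro K _ n b g h hA hh κ _ P Φ A B e hΦ hA0 hB0 hr
    have hPf : P.Finite := Set.toFinite P
    have key := Pool.Agent.V5helper45.PQ.few_main n hA.n_pos b hA.b_ne g h hA.g_ne hh hA.deg hA.coprime hA.coprime_h
      hPf.toFinset Φ hΦ A B hA0 (fun hn => hB0 ((Set.Finite.mem_toFinset hPf).1 hn)) e hr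
    rw [Set.Finite.coe_toFinset] at key
    refine Rare.mono ?_ key
    intro c hc
    rw [Set.mem_ofPred_eq] at hc ⊢
    intro hcon
    apply hc
    intro m _ hm hmh δ hcl hloc
    refine hcon m hm hmh δ hcl fun p _ => ?_
    rw [← TwistsByPolynomialValues.value_eq]
    exact hloc p
  have part2 : ∀ (K : Type) [Fintype K] (n : ℕ) (b : ℤ) (g : K → ℤ[X]) (h : ℤ[X]), Admissible n b g h →
      0 < h.natDegree → ∀ (κ : Type) [Fintype κ] (P : Set (Option κ)) (Φ : (MvPolynomial κ ℤ)[X])
        (A B : MvPolynomial κ (AlgebraicClosure ℚ)) (e : ℕ),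
        Φ ≠ 0 → A ≠ 0 → (none ∈ P → B ≠ 0) → IsRootOfMult Φ A B e →
        (∀ δ, IsClass n b δ → ¬ PersistentOver n g h A B δ) →
          Rare P {c : Option κ → ℤ | ¬ ∀ m : ℕ, 2 ≤ m → ¬ m ∣ e → m ∣ h.natDegree →
            (¬ ∃ δ : K → ℚ, IsClass n b δ ∧ LocallySoluble n m (value Φ c) g h δ) ∧
              ¬ CurveHasPoint n m b (value Φ c) g h ℚ} := by
    intro K _ n b g h hA hh κ _ P Φ A B e hΦ hA0 hB0 hr hnp
    refine Rare.mono ?_ (part1 K n b g h hA hh κ P Φ A B e hΦ hA0 hB0 hr)
    intro c hc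
    rw [Set.mem_ofPred_eq] at hc ⊢
    intro hcon
    apply hc
    intro m hm2 hm hmh
    have h1 : ¬ ∃ δ : K → ℚ, IsClass n b δ ∧ LocallySoluble n m (value Φ c) g h δ := by
      rintro ⟨δ, h2, h3⟩
      exact hnp δ h2 (hcon m hm2 hm hmh δ h2 h3)
    exact ⟨h1, fun hC => h1 (TwistsByPolynomialValues.of_point hA hC)⟩
  have part3 : ∀ (K : Type) [Fintype K] (b : ℤ) (g : K → ℤ[X]) (h : ℤ[X]), Admissible 2 b g h → 0 < h.natDegree →
      TwoClosed h → ∀ (Φ f : ℤ[X]) (e : ℕ), OddFactor Φ f e → f.eval 0 ≠ 0 →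
        RarePrimes {p : ℤ | ¬ Survivors 2 b g h e (Φ.eval p) (Persistent 2 g h)} := by
    intro K _ b g h hA hh hT Φ f e hf hf0
    have hΦ : Φ ≠ 0 := by
      rintro rfl
      apply hf.2.2.2
      rw [Polynomial.map_zero]
      exact dvd_zero _
    refine RarePrimes.mono ?_ (Pool.Agent.V5helper45.PQ.rate_all (Pool.Agent.V5helper45.PQ.odd_rate b hA.b_ne g h
      hA.g_ne hh hA.deg hA.coprime hA.coprime_h hT Φ f hΦ hf.1 hf0 hf.2.1 e hf.2.2.1 hf.2.2.2))
    intro u hu
    rw [Set.mem_ofPred_eq] at hu ⊢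
    intro hcon
    apply hu
    intro m _ hm hmh δ hcl hloc
    exact hcon m hm hmh δ hcl fun p _ => hloc p
  have part4 : ∀ (K : Type) [Fintype K] (b : ℤ) (g : K → ℤ[X]) (h : ℤ[X]), Admissible 2 b g h → 0 < h.natDegree →
      TwoClosed h → (∀ δ, IsClass 2 b δ → ¬ Persistent 2 g h δ) → ∀ (Φ f : ℤ[X]) (e : ℕ), OddFactor Φ f e →
        f.eval 0 ≠ 0 → RarePrimes {p : ℤ | ¬ ∀ m : ℕ, 2 ≤ m → ¬ m ∣ e → m ∣ h.natDegree →
          (¬ ∃ δ : K → ℚ, IsClass 2 b δ ∧ LocallySoluble 2 m (Φ.eval p) g h δ) ∧
            ¬ CurveHasPoint 2 m b (Φ.eval p) g h ℚ} := by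
    intro K _ b g h hA hh hT hnp Φ f e hf hf0
    refine RarePrimes.mono ?_ (part3 K b g h hA hh hT Φ f e hf hf0)
    intro u hu
    rw [Set.mem_ofPred_eq] at hu ⊢
    intro hcon
    apply hu
    intro m hm2 hm hmh
    have h1 : ¬ ∃ δ : K → ℚ, IsClass 2 b δ ∧ LocallySoluble 2 m (Φ.eval u) g h δ := by
      rintro ⟨δ, h2, h3⟩
      exact hnp δ h2 (hcon m hm2 hm hmh δ h2 h3)
    exact ⟨h1, fun hC => h1 (TwistsByPolynomialValues.of_point hA hC)⟩
  have hdeg : 0 < exh.natDegree := by rw [exh_deg]; norm_num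
  have hex := TwistedCyclicCoverings.result.2.2
  refine ⟨part1, part2, part3, part4, ?_, ?_, ?_, ?_⟩
  · intro K _ b g h α₁ α₂ hA hh hz Φ f e hf hf0
    have hT : TwoClosed h := by
      intro σ
      refine ⟨0, fun β hβ => ?_⟩
      rw [pow_zero, pow_one]
      rcases (hz β).1 hβ with h1 | h1
      · rw [h1, map_intCast]
      · rw [h1, map_intCast]
    refine RarePrimes.mono ?_ (part3 K b g h hA hh hT Φ f e hf hf0)
    intro u hu
    rw [Set.mem_ofPred_eq] at hu ⊢
    intro hcon
    apply hu
    intro m hm2 hm hmh δ hcl hloc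
    exact Pool.Agent.N97.RO.pers_point b g h α₁ α₂ hA.h_ne hA.coprime_h hz δ hcl (hcon m hm2 hm hmh δ hcl hloc) _ m
      (by omega)
  · intro Φ f e hf hf0
    refine RarePrimes.mono ?_ (part4 (Fin 2) 1 exg exh hex.1 hdeg TwistsByPolynomialValues.exh_twoClosed hex.2.1
      Φ f e hf hf0)
    intro u hu
    rw [Set.mem_ofPred_eq] at hu ⊢
    intro hcon
    apply hu
    intro m hm hme
    have hm' : m = 2 ∨ m = 3 ∨ m = 6 := by simpa using hm
    refine hcon m (by omega) hme ?_
    rw [exh_deg]
    rcases hm' with rfl | rfl | rfl <;> norm_num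
  · intro κ _ P Φ A B e hΦ hA0 hB0 hr
    have hinj : Function.Injective (MvPolynomial.map (σ := κ) (Int.castRingHom (AlgebraicClosure ℚ))) :=
      MvPolynomial.map_injective _ (Int.castRingHom (AlgebraicClosure ℚ)).injective_int
    refine Rare.mono ?_ (part2 (Fin 2) 2 1 exg exh hex.1 hdeg κ P Φ _ _ e hΦ
      (by rw [Ne, map_eq_zero_iff _ hinj]; exact hA0)
      (fun hn => by rw [Ne, map_eq_zero_iff _ hinj]; exact hB0 hn) hr ?_)
    · intro u hu
      rw [Set.mem_ofPred_eq] at hu ⊢
      intro hcon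
      apply hu
      intro m hm hme
      have hm' : m = 2 ∨ m = 3 ∨ m = 6 := by simpa using hm
      refine hcon m (by omega) hme ?_
      rw [exh_deg]
      rcases hm' with rfl | rfl | rfl <;> norm_num
    · intro δ hδ hper
      refine hex.2.1 δ hδ fun σ => hper σ (fun μ => ?_) (fun μ => ?_)
      · rw [MvPolynomial.coeff_map, eq_intCast, map_intCast]
      · rw [MvPolynomial.coeff_map, eq_intCast, map_intCast]
  · exact TwistedCyclicCoverings.result.2.2.2.2

end Pool.Agent.Results.MP_d37f77_nt.TwistsAtPrimes
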